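import Mathlib

/-!
# MP_6784b8: Turán numbers of suspensions of trees

For every `k ≥ 2` let `T_k` be the rooted tree whose root has `k` children, each with `2 k - 2`
children. Its colour classes have sizes `k` and `1 + k (2 k - 2)`. The complete bipartite graph
with two parts of size `m k`, in both of which we put `m` disjoint cliques on `k` vertices, has no
copy of the suspension of `T_k`, and it has more than `f(2 m k, k)` edges.
-/

namespace Pool.Agent.Results.MP_6784b8_co.TwoSidedCliques

open SimpleGraph

/-- The suspension of a graph: one new vertex, joined to all the old ones. -/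
def suspension {V : Type} (H : SimpleGraph V) : SimpleGraph (Option V) where
  Adj
    | some u, some v => H.Adj u v
    | some _, none => True
    | none, some _ => True
    | none, none => False
  symm := ⟨by
    rintro (_ | u) (_ | v) h
    · exact h
    · exact h
    · exact h
    · exact SimpleGraph.Adj.symm (G := H) h⟩
  loopless := ⟨by
    rintro (_ | u) h
    · exact h
    · exact H.loopless.irrefl u h⟩

/-- `k` is the size of the smaller class of a proper 2-colouring of `T` (unique up to swapping the
colours when `T` is a tree). -/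
def SmallerClass {V : Type} (T : SimpleGraph V) (k : ℕ) : Prop :=
  ∃ C : T.Coloring Bool, {v | C v = true}.ncard = k ∧ k ≤ {v | C v = false}.ncard

/-- The maximum of `n₀ n₁ + ⌊(k - 1) n₀ / 2⌋` over all `n₀ + n₁ = n`. -/
def f (n k : ℕ) : ℕ := (Finset.range (n + 1)).sup fun a => a * (n - a) + (k - 1) * a / 2

/-- The vertices of `T_k`: the root `none`, the children `some (i, none)` of the root, and the
leaves `some (i, some j)`. -/
abbrev TVert (k : ℕ) := Option (Fin k × Option (Fin (2 * k - 2)))

/-- The parent of a vertex (the root is its own parent). -/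
def par {k : ℕ} : TVert k → TVert k
  | none => none
  | some (_, none) => none
  | some (i, some _) => some (i, none)

/-- The tree `T_k`. -/
def tree (k : ℕ) : SimpleGraph (TVert k) := SimpleGraph.fromRel fun u v => par u = v

theorem tree_adj {k : ℕ} {u v : TVert k} :
    (tree k).Adj u v ↔ u ≠ v ∧ (par u = v ∨ par v = u) := Iff.rfl

theorem tree_child {k : ℕ} (i : Fin k) : (tree k).Adj (some (i, none)) none := by
  rw [tree_adj]
  exact ⟨by simp, Or.inl rfl⟩

theorem tree_leaf {k : ℕ} (i : Fin k) (j : Fin (2 * k - 2)) :
    (tree k).Adj (some (i, some j)) (some (i, none)) := by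
  rw [tree_adj]
  exact ⟨by simp, Or.inl rfl⟩

theorem tree_connected (k : ℕ) : (tree k).Connected := by
  have h : ∀ v : TVert k, (tree k).Reachable v none := by
    rintro (_ | ⟨i, _ | j⟩)
    · exact Reachable.refl _
    · exact (tree_child i).reachable
    · exact (tree_leaf i j).reachable.trans (tree_child i).reachable
  exact ⟨fun u v => (h u).trans (h v).symm⟩

theorem tree_isTree (k : ℕ) : (tree k).IsTree := by
  rw [isTree_iff_connected_and_card]
  refine ⟨tree_connected k, ?_⟩
  apply le_antisymm _ (tree_connected k).card_vert_le_card_edgeSet_add_one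
  have h1 : (tree k).edgeSet ⊆
      (fun v : Fin k × Option (Fin (2 * k - 2)) => s(some v, par (some v))) '' Set.univ := by
    intro e he
    induction e using Sym2.ind with
    | _ u v =>
      rw [mem_edgeSet, tree_adj] at he
      obtain ⟨hne, h | h⟩ := he
      · rcases u with _ | u
        · exact absurd h hne
        · exact ⟨u, trivial, by simp only [h]⟩
      · rcases v with _ | v
        · exact absurd h.symm hne
        · refine ⟨v, trivial, ?_⟩
          simp only [h]
          exact Sym2.eq_swap
  have h2 := (Set.ncard_le_ncard h1 (Set.toFinite _)).trans (Set.ncard_image_le Set.finite_univ)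
  rw [Set.ncard_univ] at h2
  rw [Nat.card_coe_set_eq, Finite.card_option]
  omega

/-- The colour `true` of the children of the root. -/
def colour {k : ℕ} : TVert k → Bool
  | some (_, none) => true
  | _ => false

theorem smallerClass (k : ℕ) (hk : 2 ≤ k) : SmallerClass (tree k) k := by
  refine ⟨Coloring.mk colour ?_, ?_, ?_⟩
  · intro u v h
    rw [tree_adj] at h
    rcases u with _ | ⟨i, _ | j⟩ <;> rcases v with _ | ⟨i', _ | j'⟩ <;>
      simp_all [par, colour]
  · have h1 : {v : TVert k | colour v = true} =
        (fun i : Fin k => (some (i, none) : TVert k)) '' Set.univ := by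
      ext v
      rcases v with _ | ⟨i, _ | j⟩ <;> simp [colour]
    show {v : TVert k | colour v = true}.ncard = k
    rw [h1, Set.ncard_image_of_injective _ (by
      intro i j h
      simpa using h), Set.ncard_univ]
    simp
  · have h0 : (0 : ℕ) < 2 * k - 2 := by omega
    have h1 : (fun i : Fin k => (some (i, some ⟨0, h0⟩) : TVert k)) '' Set.univ ⊆
        {v : TVert k | colour v = false} := by
      rintro _ ⟨i, -, rfl⟩
      simp [colour]
    have h2 := Set.ncard_le_ncard h1 (Set.toFinite _)
    rw [Set.ncard_image_of_injective _ (by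
      intro i j h
      simpa using h), Set.ncard_univ] at h2
    show k ≤ {v : TVert k | colour v = false}.ncard
    simpa using h2

/-- The vertices of the host graph. -/
abbrev GVert (m k : ℕ) := Bool × (Fin m × Fin k)

/-- The host graph: complete bipartite, with `m` disjoint cliques on `k` vertices in both parts. -/
def host (m k : ℕ) : SimpleGraph (GVert m k) where
  Adj u v := u.1 ≠ v.1 ∨ (u.2.1 = v.2.1 ∧ u.2.2 ≠ v.2.2)
  symm := ⟨fun _ _ h => h.imp Ne.symm fun h => ⟨h.1.symm, h.2.symm⟩⟩
  loopless := ⟨fun _ h => h.elim (fun h => h rfl) fun h => h.2 rfl⟩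

instance (m k : ℕ) : DecidableRel (host m k).Adj := fun u v =>
  inferInstanceAs (Decidable (u.1 ≠ v.1 ∨ (u.2.1 = v.2.1 ∧ u.2.2 ≠ v.2.2)))

theorem host_adj {m k : ℕ} {u v : GVert m k} :
    (host m k).Adj u v ↔ u.1 ≠ v.1 ∨ (u.2.1 = v.2.1 ∧ u.2.2 ≠ v.2.2) := Iff.rfl

theorem host_degree (m k : ℕ) (v : GVert m k) : (host m k).degree v = m * k + (k - 1) := by
  obtain ⟨s, i, a⟩ := v
  have h : (host m k).neighborFinset (s, i, a) =
      ({!s} ×ˢ (Finset.univ : Finset (Fin m × Fin k))) ∪
        ({s} ×ˢ (({i} : Finset (Fin m)) ×ˢ (Finset.univ.erase a))) := by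
    ext ⟨t, j, b⟩
    simp only [mem_neighborFinset, host_adj, Finset.mem_union, Finset.mem_product,
      Finset.mem_singleton, Finset.mem_univ, and_true, Finset.mem_erase]
    cases s <;> cases t <;> simp [eq_comm]
  rw [← card_neighborFinset_eq_degree, h, Finset.card_union_of_disjoint]
  · simp
  · rw [Finset.disjoint_left]
    rintro ⟨t, j, b⟩ h1 h2
    simp only [Finset.mem_product, Finset.mem_singleton] at h1 h2
    have h3 := h1.1.symm.trans h2.1
    cases s <;> simp at h3

theorem host_edges (m k : ℕ) :
    (host m k).edgeFinset.card = m ^ 2 * k ^ 2 + m * k * (k - 1) := by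
  have h := (host m k).sum_degrees_eq_twice_card_edges
  simp only [host_degree, Finset.sum_const, Finset.card_univ, Fintype.card_prod, Fintype.card_bool,
    Fintype.card_fin, smul_eq_mul] at h
  nlinarith

/-- The number of common neighbours of two vertices in different parts. -/
theorem common_le {m k : ℕ} (s : Bool) (p q : Fin m × Fin k) :
    (Finset.univ.filter fun u => (host m k).Adj (s, p) u ∧ (host m k).Adj (!s, q) u).card ≤
      2 * (k - 1) := by
  have h : (Finset.univ.filter fun u => (host m k).Adj (s, p) u ∧ (host m k).Adj (!s, q) u) ⊆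
      ((Finset.univ.erase p.2).image fun a => (s, p.1, a)) ∪
        ((Finset.univ.erase q.2).image fun a => (!s, q.1, a)) := by
    rintro ⟨t, j, b⟩ hu
    simp only [Finset.mem_filter, Finset.mem_univ, true_and, host_adj] at hu
    simp only [Finset.mem_union, Finset.mem_image, Finset.mem_erase, Finset.mem_univ, and_true,
      Prod.mk.injEq]
    by_cases hst : s = t
    · subst hst
      left
      rcases hu.1 with h | h
      · exact absurd rfl h
      · exact ⟨b, h.2.symm, rfl, h.1, rfl⟩
    · right
      have ht : (!s) = t := by cases s <;> cases t <;> simp_all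
      rcases hu.2 with h | h
      · exact absurd ht h
      · exact ⟨b, h.2.symm, ht, h.1, rfl⟩
  refine (Finset.card_le_card h).trans ((Finset.card_union_le _ _).trans ?_)
  have h1 := Finset.card_image_le (s := (Finset.univ.erase p.2 : Finset (Fin k)))
    (f := fun a => (s, p.1, a))
  have h2 := Finset.card_image_le (s := (Finset.univ.erase q.2 : Finset (Fin k)))
    (f := fun a => (!s, q.1, a))
  rw [Finset.card_erase_of_mem (Finset.mem_univ _), Finset.card_univ, Fintype.card_fin] at h1 h2
  omega

theorem host_free (m k : ℕ) (hk : 2 ≤ k) : (suspension (tree k)).Free (host m k) := by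
  rintro ⟨φ⟩
  obtain ⟨⟨s, p⟩, hv⟩ : ∃ v, φ none = v := ⟨_, rfl⟩
  -- all vertices of the tree are mapped to neighbours of the image of the new vertex
  have hN : ∀ t, (host m k).Adj (s, p) (φ (some t)) := by
    intro t
    rw [← hv]
    exact φ.toHom.map_adj (show (suspension (tree k)).Adj none (some t) from trivial)
  have hT : ∀ t t', (tree k).Adj t t' → (host m k).Adj (φ (some t)) (φ (some t')) :=
    fun t t' h => φ.toHom.map_adj (show (suspension (tree k)).Adj (some t) (some t') from h)
  -- one of the children of the root is mapped to the other part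
  have hex : ∃ i : Fin k, (φ (some (some (i, none)))).1 ≠ s := by
    by_contra hcon
    push Not at hcon
    -- the map to the clique
    have h1 : ∀ i : Fin k, (φ (some (some (i, none)))).2.2 ∈ (Finset.univ.erase p.2) := by
      intro i
      rcases hN (some (i, none)) with h | h
      · exact absurd (hcon i).symm h
      · simpa using h.2.symm
    have h2 : ∀ i : Fin k, (φ (some (some (i, none)))).2.1 = p.1 := by
      intro i
      rcases hN (some (i, none)) with h | h
      · exact absurd (hcon i).symm h
      · exact h.1.symm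
    have h3 : Set.InjOn (fun i : Fin k => (φ (some (some (i, none)))).2.2)
        (Finset.univ : Finset (Fin k)) := by
      intro i _ j _ hij
      have h4 : φ (some (some (i, none))) = φ (some (some (j, none))) := by
        refine Prod.ext ((hcon i).trans (hcon j).symm) (Prod.ext ((h2 i).trans (h2 j).symm) hij)
      have h5 := φ.injective h4
      simpa using h5
    have h6 := Finset.card_le_card_of_injOn _ (fun i _ => h1 i) h3
    rw [Finset.card_erase_of_mem (Finset.mem_univ _), Finset.card_univ, Fintype.card_fin] at h6
    omega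
  obtain ⟨i, hi⟩ := hex
  obtain ⟨⟨t, r⟩, hw⟩ : ∃ w, φ (some (some (i, none))) = w := ⟨_, rfl⟩
  rw [hw] at hi
  have ht : t = !s := by
    simp only at hi
    cases s <;> cases t <;> simp_all
  subst ht
  -- the neighbours of this child
  let g : Option (Fin (2 * k - 2)) → GVert m k := fun o =>
    match o with
    | none => φ (some none)
    | some j => φ (some (some (i, some j)))
  have hg1 : ∀ o, g o ∈ (Finset.univ.filter fun u =>
      (host m k).Adj (s, p) u ∧ (host m k).Adj (!s, r) u) := by
    rintro (_ | j)
    · simp only [Finset.mem_filter, Finset.mem_univ, true_and, g]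
      refine ⟨hN _, ?_⟩
      rw [← hw]
      exact hT _ _ (tree_child i)
    · simp only [Finset.mem_filter, Finset.mem_univ, true_and, g]
      refine ⟨hN _, ?_⟩
      rw [← hw]
      exact hT _ _ (tree_leaf i j).symm
  have hg2 : Function.Injective g := by
    rintro (_ | j) (_ | j') h
    · rfl
    · have := φ.injective h
      simp at this
    · have := φ.injective h
      simp at this
    · have := φ.injective h
      simp at this
      rw [this]
  have h1 := Finset.card_le_card_of_injOn g (s := Finset.univ) (fun o _ => hg1 o) hg2.injOn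
  have h2 := common_le s p r
  rw [Finset.card_univ, Fintype.card_option, Fintype.card_fin] at h1
  omega

theorem le_extremalNumber (m k : ℕ) (hk : 2 ≤ k) :
    m ^ 2 * k ^ 2 + m * k * (k - 1) ≤ extremalNumber (2 * m * k) (suspension (tree k)) := by
  rw [← host_edges m k]
  have h := card_edgeFinset_le_extremalNumber (host_free m k hk)
  rw [Fintype.card_prod, Fintype.card_prod, Fintype.card_bool, Fintype.card_fin, Fintype.card_fin,
    ← mul_assoc] at h
  exact h

theorem f_lt (m k : ℕ) (hm : 1 ≤ m) (hk : 2 ≤ k) :
    f (2 * m * k) k < m ^ 2 * k ^ 2 + m * k * (k - 1) := by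
  unfold f
  rw [Finset.sup_lt_iff (by positivity)]
  intro a ha
  have ha' : a ≤ 2 * m * k := by
    have := Finset.mem_range.mp ha
    omega
  obtain ⟨b, hb⟩ : ∃ b, 2 * m * k = a + b := ⟨2 * m * k - a, by omega⟩
  have hb' : 2 * m * k - a = b := by omega
  rw [hb']
  obtain ⟨c, rfl⟩ : ∃ c, k = c + 1 := ⟨k - 1, by omega⟩
  have hc : 1 ≤ c := by omega
  simp only [Nat.add_sub_cancel]
  obtain ⟨N, hN⟩ : ∃ N, N = m * (c + 1) := ⟨_, rfl⟩
  have hN0 : 1 ≤ N := by rw [hN]; exact Nat.one_le_iff_ne_zero.mpr (by positivity)
  have e1 : 2 * N = a + b := by rw [hN, ← hb]; ring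
  have e2 : m ^ 2 * (c + 1) ^ 2 + m * (c + 1) * c = N * N + N * c := by rw [hN]; ring
  rw [e2]
  have h3 : c * a / 2 * 2 ≤ c * a := Nat.div_mul_le_self _ _
  -- multiply by two
  suffices h : 2 * (a * b) + c * a < 2 * (N * N + N * c) by omega
  zify at *
  have e3 : (b : ℤ) = 2 * N - a := by linarith
  rw [e3]
  rcases le_or_gt (a : ℤ) N with h | h
  · nlinarith [mul_nonneg (show (0 : ℤ) ≤ c by positivity) (sub_nonneg.mpr h),
      mul_pos (show (0 : ℤ) < c by linarith) (show (0 : ℤ) < N by linarith),
      sq_nonneg ((a : ℤ) - N)]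
  · have h4 : (a : ℤ) ≤ 2 * N := by linarith
    nlinarith [mul_nonneg (show (0 : ℤ) ≤ c by positivity) (sub_nonneg.mpr h4),
      mul_pos (show (0 : ℤ) < a - N by linarith) (show (0 : ℤ) < a - N by linarith)]

/-- **Negative answer to Q1.** For every `k ≥ 2` there is a tree `T` with smaller colour class of
size `k` such that `ex(2 m k, T̂) ≥ m² k² + m k (k - 1) > f(2 m k, k)` for all `m ≥ 1`; hence the
statement of Q1 is false. -/
theorem result :
    (∀ k : ℕ, 2 ≤ k → ∃ (V : Type) (_ : Fintype V) (T : SimpleGraph V), T.IsTree ∧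
      SmallerClass T k ∧ ∀ m : ℕ, 1 ≤ m →
        m ^ 2 * k ^ 2 + m * k * (k - 1) ≤ extremalNumber (2 * m * k) (suspension T) ∧
        f (2 * m * k) k < extremalNumber (2 * m * k) (suspension T)) ∧
    ¬ ∀ (V : Type) (_ : Fintype V) (T : SimpleGraph V) (k : ℕ), T.IsTree → 2 ≤ Fintype.card V →
      SmallerClass T k →
      ∃ n₀ : ℕ, ∀ n, n₀ ≤ n → extremalNumber n (suspension T) ≤ f n k := by
  refine ⟨fun k hk => ⟨TVert k, inferInstance, tree k, tree_isTree k, smallerClass k hk,
    fun m hm => ⟨le_extremalNumber m k hk, (f_lt m k hm hk).trans_le (le_extremalNumber m k hk)⟩⟩,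
    fun h => ?_⟩
  obtain ⟨n₀, hn⟩ := h (TVert 2) inferInstance (tree 2) 2 (tree_isTree 2) (by
    simp [Fintype.card_option]) (smallerClass 2 le_rfl)
  have h1 := hn (2 * (n₀ + 1) * 2) (by omega)
  have h2 := (f_lt (n₀ + 1) 2 (by omega) le_rfl).trans_le (le_extremalNumber (n₀ + 1) 2 le_rfl)
  exact absurd h1 (not_le.mpr h2)

end Pool.Agent.Results.MP_6784b8_co.TwoSidedCliques
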